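import Mathlib

/-!
Boolean networks, signed interaction graphs, asynchronous attractors: definitions and basic lemmas.
-/

set_option autoImplicit false

open Relation

namespace NSep

/-- configurations -/
abbrev Cfg (n : ℕ) := Fin n → Bool

variable {n : ℕ}

/-- `Arc f s j i`: the signed interaction graph `G(f)` has an arc `j → i`, positive if `s = true`,
negative if `s = false`. -/
def Arc (f : Cfg n → Cfg n) (s : Bool) (j i : Fin n) : Prop :=
  ∃ x y : Cfg n, (∀ k, k ≠ j → x k = y k) ∧ x j = false ∧ y j = true ∧ f x i = !s ∧ f y i = s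

/-- the arcs of the asynchronous graph -/
def Step (f : Cfg n → Cfg n) (x y : Cfg n) : Prop :=
  ∃ i, f x i ≠ x i ∧ y = Function.update x i (!x i)

/-- trap sets -/
def IsTrap (f : Cfg n → Cfg n) (X : Set (Cfg n)) : Prop :=
  ∀ x ∈ X, ∀ y, Step f x y → y ∈ X

/-- attractors: the inclusion-minimal nonempty trap sets -/
def IsAttractor (f : Cfg n → Cfg n) (A : Set (Cfg n)) : Prop :=
  A.Nonempty ∧ IsTrap f A ∧ ∀ X : Set (Cfg n), X.Nonempty → IsTrap f X → X ⊆ A → X = A

/-- subspaces: some coordinates are fixed -/
def IsSubspace (S : Set (Cfg n)) : Prop :=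
  ∃ p : Fin n → Option Bool, S = {x | ∀ i b, p i = some b → x i = b}

/-- the smallest subspace containing `X` -/
def hull (X : Set (Cfg n)) : Set (Cfg n) := ⋂₀ {S | IsSubspace S ∧ X ⊆ S}

/-- distinct attractors have disjoint hulls -/
def Separating (f : Cfg n → Cfg n) : Prop :=
  ∀ A B, IsAttractor f A → IsAttractor f B → A ≠ B → hull A ∩ hull B = ∅

/-- `W` is the vertex set of a positive (elementary, directed) cycle of `G(f)` -/
def PosCycle (f : Cfg n → Cfg n) (W : Finset (Fin n)) : Prop :=
  ∃ (m : ℕ) (c : Fin (m + 1) → Fin n) (s : Fin (m + 1) → Bool), Function.Injective c ∧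
    Finset.univ.image c = W ∧ (∀ t, Arc f (s t) (c t) (c (t + 1))) ∧
    Even (Finset.univ.filter (fun t => s t = false)).card

/-- `i` can be reached from `j` in `G(f)` -/
def Path (f : Cfg n → Cfg n) (j i : Fin n) : Prop := ReflTransGen (fun a b => ∃ s, Arc f s a b) j i

/-- `j` and `i` lie in the same strong component of `G(f)` -/
def SameComp (f : Cfg n → Cfg n) (j i : Fin n) : Prop := Path f j i ∧ Path f i j

/-! ### arcs -/

theorem arc_of_flip {f : Cfg n → Cfg n} {x : Cfg n} {j k : Fin n}
    (h : f x k ≠ f (Function.update x j (!x j)) k) : Arc f (x j == f x k) j k := by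
  rcases hx : x j with _ | _
  · refine ⟨x, Function.update x j (!x j), ?_, hx, ?_, ?_, ?_⟩
    · intro l hl
      rw [Function.update_of_ne hl]
    · rw [Function.update_self, hx]; rfl
    · cases h1 : f x k <;> rfl
    · cases h1 : f x k <;> cases h2 : f (Function.update x j (!x j)) k <;> simp_all
  · refine ⟨Function.update x j (!x j), x, ?_, ?_, hx, ?_, ?_⟩
    · intro l hl
      rw [Function.update_of_ne hl]
    · rw [Function.update_self, hx]; rfl
    · cases h1 : f x k <;> cases h2 : f (Function.update x j (!x j)) k <;> simp_all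
    · cases h1 : f x k <;> rfl

/-- if `f_k` takes different values at `x` and `y`, there is an arc into `k` from a coordinate where they differ -/
theorem exists_arc {f : Cfg n → Cfg n} {k : Fin n} {y : Cfg n} :
    ∀ (d : ℕ) (x : Cfg n), (Finset.univ.filter (fun j => x j ≠ y j)).card = d → f x k ≠ f y k →
      ∃ j, x j ≠ y j ∧ Arc f (x j == f x k) j k := by
  intro d
  induction d with
  | zero =>
    intro x hx h
    exfalso
    apply h
    have : x = y := by
      funext j
      by_contra hj
      have h1 : j ∈ Finset.univ.filter (fun j => x j ≠ y j) := by simp [hj]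
      rw [Finset.card_eq_zero] at hx
      rw [hx] at h1
      exact absurd h1 (Finset.notMem_empty _)
    rw [this]
  | succ d ih =>
    intro x hx h
    obtain ⟨j, hj⟩ : (Finset.univ.filter (fun j => x j ≠ y j)).Nonempty := by
      rw [← Finset.card_pos, hx]
      omega
    have hj' : x j ≠ y j := by simpa using hj
    by_cases h1 : f x k = f (Function.update x j (!x j)) k
    · have hset : Finset.univ.filter (fun l => Function.update x j (!x j) l ≠ y l) =
          (Finset.univ.filter (fun j => x j ≠ y j)).erase j := by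
        ext l
        by_cases hl : l = j
        · subst hl
          have : (!x l) = y l := by
            cases h2 : x l <;> cases h3 : y l <;> simp_all
          simp [this]
        · simp [hl]
      have hc : (Finset.univ.filter (fun l => Function.update x j (!x j) l ≠ y l)).card = d := by
        rw [hset, Finset.card_erase_of_mem hj, hx]
        rfl
      obtain ⟨l, hl1, hl2⟩ := ih _ hc (by rw [← h1]; exact h)
      have hlj : l ≠ j := by
        rintro rfl
        have hm : l ∈ Finset.univ.filter (fun l' => Function.update x l (!x l) l' ≠ y l') := by simpa using hl1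
        rw [hset] at hm
        exact absurd hm (Finset.notMem_erase _ _)
      rw [Function.update_of_ne hlj] at hl1 hl2
      rw [← h1] at hl2
      exact ⟨l, hl1, hl2⟩
    · exact ⟨j, hj', arc_of_flip h1⟩

theorem exists_arc' {f : Cfg n → Cfg n} {k : Fin n} {x y : Cfg n} (h : f x k ≠ f y k) :
    ∃ j, x j ≠ y j ∧ Arc f (x j == f x k) j k := exists_arc _ x rfl h

/-! ### attractors -/

/-- reachability in the asynchronous graph -/
def Reach (f : Cfg n → Cfg n) (x y : Cfg n) : Prop := ReflTransGen (Step f) x y

theorem trap_reach {f : Cfg n → Cfg n} {X : Set (Cfg n)} (hX : IsTrap f X) {x y : Cfg n} (hx : x ∈ X)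
    (h : Reach f x y) : y ∈ X := by
  unfold Reach at h
  induction h with
  | refl => exact hx
  | tail _ h2 ih => exact hX _ ih _ h2

theorem att_reach {f : Cfg n → Cfg n} {A : Set (Cfg n)} (hA : IsAttractor f A) {x y : Cfg n} (hx : x ∈ A)
    (hy : y ∈ A) : Reach f x y := by
  have h1 : {z | Reach f x z} = A := by
    refine hA.2.2 _ ⟨x, ReflTransGen.refl⟩ ?_ ?_
    · intro z hz w hw
      exact ReflTransGen.tail hz hw
    · intro z hz
      exact trap_reach hA.2.1 hx hz
  rw [← h1] at hy
  exact hy

theorem att_eq {f : Cfg n → Cfg n} {A B : Set (Cfg n)} (hA : IsAttractor f A) (hB : IsAttractor f B) {x : Cfg n}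
    (hxA : x ∈ A) (hxB : x ∈ B) : A = B := by
  ext y
  constructor
  · intro hy
    exact trap_reach hB.2.1 hxB (att_reach hA hxA hy)
  · intro hy
    exact trap_reach hA.2.1 hxA (att_reach hB hxB hy)

theorem mem_hull {X : Set (Cfg n)} (hX : X.Nonempty) (z : Cfg n) : z ∈ hull X ↔ ∀ i, ∃ x ∈ X, x i = z i := by
  constructor
  · intro hz i
    by_contra hne
    push Not at hne
    have h1 : z ∈ {x : Cfg n | ∀ i' b, (if i' = i then some (!z i) else none) = some b → x i' = b} := by
      refine hz _ ⟨⟨fun i' => if i' = i then some (!z i) else none, rfl⟩, ?_⟩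
      intro x hx i' b hb
      by_cases h2 : i' = i
      · subst h2
        rw [if_pos rfl] at hb
        have h3 := hne x hx
        have h4 : b = !z i' := (Option.some.inj hb).symm
        rw [h4]
        cases h5 : x i' <;> cases h6 : z i' <;> simp_all
      · rw [if_neg h2] at hb
        exact absurd hb (by simp)
    have h2 := h1 i (!z i) (if_pos rfl)
    exact absurd h2 (by cases z i <;> decide)
  · intro h S hS
    obtain ⟨⟨p, rfl⟩, hXS⟩ := hS
    intro i b hb
    obtain ⟨x, hx, hxi⟩ := h i
    rw [← hxi]
    exact hXS hx i b hb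

/-- two attractors with intersecting hulls are not separated by a coordinate -/
theorem not_sep {A B : Set (Cfg n)} (hA : A.Nonempty) (hB : B.Nonempty) (h : hull A ∩ hull B ≠ ∅) (k : Fin n) (c : Bool) :
    ¬ ((∀ x ∈ A, x k = c) ∧ (∀ y ∈ B, y k = !c)) := by
  rintro ⟨h1, h2⟩
  obtain ⟨z, hzA, hzB⟩ := Set.nonempty_iff_ne_empty.2 h
  obtain ⟨x, hx, hxz⟩ := (mem_hull hA z).1 hzA k
  obtain ⟨y, hy, hyz⟩ := (mem_hull hB z).1 hzB k
  have h3 := h1 x hx
  have h4 := h2 y hy
  rw [hxz] at h3
  rw [hyz, h3] at h4
  exact absurd h4 (by cases c <;> decide)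

/-! ### cycles -/

theorem exists_walk {E : Fin n → Fin n → Prop} {z p : Fin n} (h : ReflTransGen E z p) :
    ∃ (L : ℕ) (w : ℕ → Fin n), w 0 = z ∧ w L = p ∧ ∀ i < L, E (w i) (w (i + 1)) := by
  induction h with
  | refl => exact ⟨0, fun _ => z, rfl, rfl, fun i hi => absurd hi (Nat.not_lt_zero _)⟩
  | @tail b c _ h2 ih =>
    obtain ⟨L, w, h0, hL, hw⟩ := ih
    refine ⟨L + 1, fun i => if i ≤ L then w i else c, ?_, ?_, ?_⟩
    · simp [h0]
    · simp
    · intro i hi
      by_cases hiL : i = L
      · subst hiL
        simp [hL, h2]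
      · have h3 : i < L := by omega
        have h4 : i + 1 ≤ L := by omega
        simp only [if_pos h3.le, if_pos h4]
        exact hw i h3

/-- an arc `p → z` with a path back from `z` to `p` lies on an elementary cycle -/
theorem exists_cycle {E : Fin n → Fin n → Prop} {p z : Fin n} (hpz : E p z) (h : ReflTransGen E z p) :
    ∃ (m : ℕ) (c : Fin (m + 1) → Fin n), Function.Injective c ∧ (∀ t, E (c t) (c (t + 1))) ∧
      (∃ t, c t = p) ∧ (∃ t, c t = z) := by
  classical
  have hex : ∃ L : ℕ, ∃ w : ℕ → Fin n, w 0 = z ∧ w L = p ∧ ∀ i < L, E (w i) (w (i + 1)) := exists_walk h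
  obtain ⟨w, h0, hL, hw⟩ := Nat.find_spec hex
  have hmin : ∀ L', L' < Nat.find hex → ¬ ∃ w : ℕ → Fin n, w 0 = z ∧ w L' = p ∧ ∀ i < L', E (w i) (w (i + 1)) :=
    fun L' hL' => Nat.find_min hex hL'
  generalize Nat.find hex = L at h0 hL hw hmin
  have hinj : ∀ i j, i < j → j ≤ L → w i ≠ w j := by
    intro i j hij hjL heq
    refine hmin (L - (j - i)) (by omega) ⟨fun t => if t ≤ i then w t else w (t + (j - i)), ?_, ?_, ?_⟩
    · simp [h0]
    · by_cases h1 : L - (j - i) ≤ i
      · simp only [if_pos h1]
        have h2 : j = L := by omega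
        have h3 : L - (j - i) = i := by omega
        rw [h3, heq, h2, hL]
      · simp only [if_neg h1]
        have h3 : L - (j - i) + (j - i) = L := by omega
        rw [h3, hL]
    · intro t ht
      by_cases h1 : t < i
      · simp only [if_pos h1.le, if_pos (show t + 1 ≤ i by omega)]
        exact hw t (by omega)
      · by_cases h2 : t = i
        · subst h2
          simp only [if_pos le_rfl, if_neg (show ¬ t + 1 ≤ t by omega)]
          rw [heq]
          have h3 : t + 1 + (j - t) = j + 1 := by omega
          rw [h3]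
          exact hw j (by omega)
        · simp only [if_neg (show ¬ t ≤ i by omega), if_neg (show ¬ t + 1 ≤ i by omega)]
          have h3 : t + 1 + (j - i) = t + (j - i) + 1 := by omega
          rw [h3]
          exact hw _ (by omega)
  refine ⟨L, fun t => w t.val, ?_, ?_, ⟨Fin.last L, ?_⟩, ⟨0, ?_⟩⟩
  · intro a b hab
    rcases lt_trichotomy a.val b.val with h1 | h1 | h1
    · exact absurd hab (hinj _ _ h1 (by omega))
    · exact Fin.ext h1
    · exact absurd hab.symm (hinj _ _ h1 (by omega))
  · intro t
    rcases Nat.lt_or_ge t.val L with h1 | h1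
    · have h2 : (t + 1).val = t.val + 1 := by
        rw [Fin.val_add_one_of_lt (by rw [Fin.lt_def]; simpa using h1)]
      simp only [h2]
      exact hw _ h1
    · have h2 : t = Fin.last L := by
        apply Fin.ext
        simp only [Fin.val_last]
        omega
      subst h2
      simp only [Fin.last_add_one, Fin.val_zero, Fin.val_last, h0, hL]
      exact hpz
  · simpa using hL
  · simpa using h0

theorem even_changes (m : ℕ) (a : Fin (m + 1) → Bool) :
    Even (Finset.univ.filter (fun t => (a t == a (t + 1)) = false)).card := by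
  have e : ∀ b : Bool, (if b then (1 : ℤ) else -1) ^ 2 = 1 := by intro b; cases b <;> simp
  have h1 : ∏ t : Fin (m + 1), (if (a t == a (t + 1)) = false then (-1 : ℤ) else 1) = 1 := by
    have h2 : ∀ t : Fin (m + 1), (if (a t == a (t + 1)) = false then (-1 : ℤ) else 1) =
        (if a t then (1 : ℤ) else -1) * (if a (t + 1) then (1 : ℤ) else -1) := by
      intro t
      cases h3 : a t <;> cases h4 : a (t + 1) <;> simp
    simp only [h2, Finset.prod_mul_distrib]
    have h3 : ∏ t : Fin (m + 1), (if a (t + 1) then (1 : ℤ) else -1) = ∏ t : Fin (m + 1), (if a t then (1 : ℤ) else -1) :=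
      Fintype.prod_equiv (Equiv.addRight 1) _ _ (fun t => rfl)
    rw [h3, ← Finset.prod_mul_distrib]
    refine Finset.prod_eq_one (fun t _ => ?_)
    rw [← pow_two]
    exact e _
  rw [Finset.prod_ite] at h1
  simp only [Finset.prod_const, one_pow, mul_one] at h1
  exact (neg_one_pow_eq_one_iff_even (R := ℤ) (by norm_num)).1 h1

/-- a cycle of arcs whose signs are those of `g_j g_i` is positive -/
theorem posCycle_of {f : Cfg n → Cfg n} (g : Cfg n) {m : ℕ} {c : Fin (m + 1) → Fin n} (hc : Function.Injective c)
    (h : ∀ t, Arc f (g (c t) == g (c (t + 1))) (c t) (c (t + 1))) : PosCycle f (Finset.univ.image c) :=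
  ⟨m, c, fun t => g (c t) == g (c (t + 1)), hc, rfl, h, even_changes m (fun t => g (c t))⟩

/-- if every vertex of a nonempty set has an in-neighbour in the set, then the set contains a cycle -/
theorem exists_cycle_of_back {E : Fin n → Fin n → Prop} (D : Finset (Fin n)) (hD : D.Nonempty)
    (h : ∀ k ∈ D, ∃ j ∈ D, E j k) :
    ∃ (m : ℕ) (c : Fin (m + 1) → Fin n), Function.Injective c ∧ (∀ t, E (c t) (c (t + 1))) ∧ ∀ t, c t ∈ D := by
  classical
  choose! g hg hE using h
  obtain ⟨k₀, hk₀⟩ := hD
  have hit : ∀ m, g^[m] k₀ ∈ D := by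
    intro m
    induction m with
    | zero => exact hk₀
    | succ m ih => rw [Function.iterate_succ_apply']; exact hg _ ih
  obtain ⟨a, b, hab, hgab⟩ := Finite.exists_ne_map_eq_of_infinite (fun m : ℕ => g^[m] k₀)
  have key : ∀ a b : ℕ, a < b → g^[a] k₀ = g^[b] k₀ →
      ∃ (m : ℕ) (c : Fin (m + 1) → Fin n), Function.Injective c ∧ (∀ t, E (c t) (c (t + 1))) ∧ ∀ t, c t ∈ D := by
    intro a b hab hgab
    have hchain : ∀ d x, x ∈ D → ReflTransGen (fun i j => i ∈ D ∧ j ∈ D ∧ E i j) (g^[d] x) x := by
      intro d
      induction d with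
      | zero => intro x _; exact ReflTransGen.refl
      | succ d ih =>
        intro x hx
        rw [Function.iterate_succ_apply]
        exact ReflTransGen.tail (ih (g x) (hg x hx)) ⟨hg x hx, hx, hE x hx⟩
    have hx := hit a
    set x := g^[a] k₀ with hxd
    obtain ⟨d, hd⟩ : ∃ d, b = a + (d + 1) := ⟨b - a - 1, by omega⟩
    have hper : g^[d] (g x) = x := by
      rw [← Function.iterate_succ_apply, hxd, ← Function.iterate_add_apply, add_comm (d.succ) a]
      rw [hd] at hgab
      exact hgab.symm
    have h1 := hchain d (g x) (hg x hx)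
    rw [hper] at h1
    obtain ⟨m, c, hc, hEc, -, -⟩ := exists_cycle (E := fun i j => i ∈ D ∧ j ∈ D ∧ E i j) (p := g x) (z := x)
      ⟨hg x hx, hx, hE x hx⟩ h1
    exact ⟨m, c, hc, fun t => (hEc t).2.2, fun t => (hEc t).1⟩
  rcases lt_or_gt_of_ne hab with h1 | h1
  · exact key a b h1 hgab
  · exact key b a h1 hgab.symm

end NSep
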