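import Pool.Agent.MP_d0ff89_co.Basic

/-!
A fixed point `b` which is not separated from another attractor: three positive cycles.
-/

set_option autoImplicit false

open Relation

namespace NSep

variable {n : ℕ} {f : Cfg n → Cfg n}

/-- the arcs of sign `+` iff `b_j = b_i` -/
def BArc (f : Cfg n → Cfg n) (b : Cfg n) (j i : Fin n) : Prop := Arc f (b j == b i) j i

/-- vertex sets of elementary cycles of such arcs -/
def BCycle (f : Cfg n → Cfg n) (b : Cfg n) (W : Finset (Fin n)) : Prop :=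
  ∃ (m : ℕ) (c : Fin (m + 1) → Fin n), Function.Injective c ∧ Finset.univ.image c = W ∧ ∀ t, BArc f b (c t) (c (t + 1))

theorem BCycle.pos {b : Cfg n} {W : Finset (Fin n)} (h : BCycle f b W) : PosCycle f W := by
  obtain ⟨m, c, hc, rfl, hE⟩ := h
  exact posCycle_of b hc hE

/-- reachability along these arcs -/
def BPath (f : Cfg n → Cfg n) (b : Cfg n) (j i : Fin n) : Prop := ReflTransGen (BArc f b) j i

/-- one coordinate is updated in one or in both members of a pair of configurations -/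
def PStep (f : Cfg n → Cfg n) (p q : Cfg n × Cfg n) : Prop :=
  ∃ i, (∀ k, k ≠ i → q.1 k = p.1 k ∧ q.2 k = p.2 k) ∧ (q.1 i = p.1 i ∨ q.1 i = f p.1 i) ∧
    (q.2 i = p.2 i ∨ q.2 i = f p.2 i) ∧ (q.1 i ≠ q.2 i → p.1 i ≠ p.2 i ∨ (f p.1 i ≠ f p.2 i ∧ q.1 i = f p.1 i))

def PReach (f : Cfg n → Cfg n) (p q : Cfg n × Cfg n) : Prop := ReflTransGen (PStep f) p q

theorem mem_of_upd {A : Set (Cfg n)} (hA : IsTrap f A) {x y : Cfg n} (hx : x ∈ A) {i : Fin n}
    (h : ∀ k, k ≠ i → y k = x k) (hi : y i = x i ∨ y i = f x i) : y ∈ A := by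
  by_cases h1 : y i = x i
  · have : y = x := by
      funext k
      by_cases hk : k = i
      · rw [hk, h1]
      · exact h k hk
    rw [this]
    exact hx
  · refine hA x hx y ⟨i, ?_, ?_⟩
    · rw [← hi.resolve_left h1]
      exact h1
    · funext k
      by_cases hk : k = i
      · subst hk
        rw [Function.update_self]
        cases h2 : y k <;> cases h3 : x k <;> simp_all
      · rw [Function.update_of_ne hk]
        exact h k hk

theorem pstep_mem {A B : Set (Cfg n)} (hA : IsTrap f A) (hB : IsTrap f B) {p q : Cfg n × Cfg n}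
    (h : PStep f p q) (hp : p.1 ∈ A ∧ p.2 ∈ B) : q.1 ∈ A ∧ q.2 ∈ B := by
  obtain ⟨i, h1, h2, h3, -⟩ := h
  exact ⟨mem_of_upd hA hp.1 (fun k hk => (h1 k hk).1) h2, mem_of_upd hB hp.2 (fun k hk => (h1 k hk).2) h3⟩

theorem preach_mem {A B : Set (Cfg n)} (hA : IsTrap f A) (hB : IsTrap f B) {p q : Cfg n × Cfg n}
    (h : PReach f p q) (hp : p.1 ∈ A ∧ p.2 ∈ B) : q.1 ∈ A ∧ q.2 ∈ B := by
  unfold PReach at h
  induction h with
  | refl => exact hp
  | tail _ h2 ih => exact pstep_mem hA hB h2 ih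

theorem pstep_of {x y x' y' : Cfg n} (i : Fin n) (hx : ∀ k, k ≠ i → x' k = x k) (hy : ∀ k, k ≠ i → y' k = y k)
    (h1 : x' i = x i ∨ x' i = f x i) (h2 : y' i = y i ∨ y' i = f y i)
    (h3 : x' i ≠ y' i → x i ≠ y i ∨ (f x i ≠ f y i ∧ x' i = f x i)) : PStep f (x, y) (x', y') :=
  ⟨i, fun k hk => ⟨hx k hk, hy k hk⟩, h1, h2, h3⟩

theorem lead₁ {x x' : Cfg n} (h : Reach f x x') (y : Cfg n) : ∃ y', PReach f (x, y) (x', y') := by
  unfold Reach at h
  induction h with
  | refl => exact ⟨y, ReflTransGen.refl⟩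
  | @tail u w _ h2 ih =>
    obtain ⟨y', h3⟩ := ih
    obtain ⟨i, hi, rfl⟩ := h2
    have hfi : (!u i) = f u i := by cases h4 : u i <;> cases h5 : f u i <;> simp_all
    by_cases h4 : u i = y' i ∧ f y' i ≠ y' i
    · have hfi' : (!y' i) = f y' i := by
        have h6 := h4.2
        cases h4 : y' i <;> cases h5 : f y' i <;> simp_all
      refine ⟨Function.update y' i (!y' i), ReflTransGen.tail h3 (pstep_of i (fun k hk => Function.update_of_ne hk _ _)
        (fun k hk => Function.update_of_ne hk _ _) (Or.inr ?_) (Or.inr ?_) ?_)⟩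
      · rw [Function.update_self, hfi]
      · rw [Function.update_self, hfi']
      · rw [Function.update_self, Function.update_self, h4.1]
        exact fun h => absurd rfl h
    · refine ⟨y', ReflTransGen.tail h3 (pstep_of i (fun k hk => Function.update_of_ne hk _ _)
        (fun k hk => rfl) (Or.inr ?_) (Or.inl rfl) ?_)⟩
      · rw [Function.update_self, hfi]
      · rw [Function.update_self]
        intro h5
        by_cases h6 : u i = y' i
        · right
          have h7 : f y' i = y' i := by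
            by_contra h8
            exact h4 ⟨h6, h8⟩
          refine ⟨?_, hfi⟩
          rw [h7, ← hfi]
          exact h5
        · exact Or.inl h6

theorem lead₂ {y y' : Cfg n} (h : Reach f y y') (x : Cfg n) : ∃ x', PReach f (x, y) (x', y') := by
  unfold Reach at h
  induction h with
  | refl => exact ⟨x, ReflTransGen.refl⟩
  | @tail u w _ h2 ih =>
    obtain ⟨x', h3⟩ := ih
    obtain ⟨i, hi, rfl⟩ := h2
    have hfi : (!u i) = f u i := by cases h4 : u i <;> cases h5 : f u i <;> simp_all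
    by_cases h4 : u i = x' i ∧ f x' i ≠ x' i
    · have hfi' : (!x' i) = f x' i := by
        have h6 := h4.2
        cases h4 : x' i <;> cases h5 : f x' i <;> simp_all
      refine ⟨Function.update x' i (!x' i), ReflTransGen.tail h3 (pstep_of i (fun k hk => Function.update_of_ne hk _ _)
        (fun k hk => Function.update_of_ne hk _ _) (Or.inr ?_) (Or.inr ?_) ?_)⟩
      · rw [Function.update_self, hfi']
      · rw [Function.update_self, hfi]
      · rw [Function.update_self, Function.update_self, h4.1]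
        exact fun h => absurd rfl h
    · refine ⟨x', ReflTransGen.tail h3 (pstep_of i (fun k hk => rfl)
        (fun k hk => Function.update_of_ne hk _ _) (Or.inl rfl) (Or.inr ?_) ?_)⟩
      · rw [Function.update_self, hfi]
      · rw [Function.update_self]
        intro h5
        by_cases h6 : u i = x' i
        · right
          have h7 : f x' i = x' i := by
            by_contra h8
            exact h4 ⟨h6, h8⟩
          refine ⟨?_, h7.symm⟩
          rw [h7, ← hfi]
          exact h5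
        · exact Or.inl (Ne.symm h6)

/-- a pair is closed: every coordinate where the members differ is stable in both -/
def Closed (f : Cfg n → Cfg n) (p : Cfg n × Cfg n) : Prop := ∀ k, p.1 k ≠ p.2 k → f p.1 k = p.1 k ∧ f p.2 k = p.2 k

theorem exists_closed (p : Cfg n × Cfg n) :
    ∃ q, PReach f p q ∧ Closed f q ∧ ∀ k, q.1 k ≠ q.2 k → p.1 k ≠ p.2 k := by
  classical
  have hex : ∃ d : ℕ, ∃ q, PReach f p q ∧ (∀ k, q.1 k ≠ q.2 k → p.1 k ≠ p.2 k) ∧
      (Finset.univ.filter (fun k => q.1 k ≠ q.2 k)).card = d := ⟨_, p, ReflTransGen.refl, fun _ h => h, rfl⟩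
  obtain ⟨⟨x, y⟩, hq, hqp, hd⟩ := Nat.find_spec hex
  have hmin := fun d (hd : d < Nat.find hex) => Nat.find_min hex hd
  generalize Nat.find hex = d at hd hmin
  simp only at hqp hd
  refine ⟨(x, y), hq, ?_, hqp⟩
  intro k hk
  simp only at hk ⊢
  have hmem : k ∈ Finset.univ.filter (fun k => x k ≠ y k) := by simp [hk]
  have hd0 : 0 < d := by
    rw [← hd]
    exact Finset.card_pos.2 ⟨k, hmem⟩
  constructor
  · by_contra hne
    have e1 : (!x k) = f x k := by cases h4 : x k <;> cases h5 : f x k <;> simp_all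
    have e2 : (!x k) = y k := by cases h4 : x k <;> cases h5 : y k <;> simp_all
    refine hmin (d - 1) (by omega) ⟨(Function.update x k (!x k), y), ReflTransGen.tail hq (pstep_of k
      (fun l hl => Function.update_of_ne hl _ _) (fun _ _ => rfl) (Or.inr ?_) (Or.inl rfl) ?_), ?_, ?_⟩
    · rw [Function.update_self, e1]
    · rw [Function.update_self, e2]
      exact fun h => absurd rfl h
    · intro l hl
      by_cases hlk : l = k
      · subst hlk
        exact hqp l hk
      · simp only [Function.update_of_ne hlk] at hl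
        exact hqp l hl
    · have hset : Finset.univ.filter (fun l => Function.update x k (!x k) l ≠ y l) =
          (Finset.univ.filter (fun k => x k ≠ y k)).erase k := by
        ext l
        by_cases hl : l = k
        · subst hl
          simp [e2]
        · simp [hl]
      simp only
      rw [hset, Finset.card_erase_of_mem hmem, hd]
  · by_contra hne
    have e1 : (!y k) = f y k := by cases h4 : y k <;> cases h5 : f y k <;> simp_all
    have e2 : x k = (!y k) := by cases h4 : x k <;> cases h5 : y k <;> simp_all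
    refine hmin (d - 1) (by omega) ⟨(x, Function.update y k (!y k)), ReflTransGen.tail hq (pstep_of k
      (fun _ _ => rfl) (fun l hl => Function.update_of_ne hl _ _) (Or.inl rfl) (Or.inr ?_) ?_), ?_, ?_⟩
    · rw [Function.update_self, e1]
    · rw [Function.update_self, e2]
      exact fun h => absurd rfl h
    · intro l hl
      by_cases hlk : l = k
      · subst hlk
        exact hqp l hk
      · simp only [Function.update_of_ne hlk] at hl
        exact hqp l hl
    · have hset : Finset.univ.filter (fun l => x l ≠ Function.update y k (!y k) l) =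
          (Finset.univ.filter (fun k => x k ≠ y k)).erase k := by
        ext l
        by_cases hl : l = k
        · subst hl
          simp [e2]
        · simp [hl]
      simp only
      rw [hset, Finset.card_erase_of_mem hmem, hd]

/-- vertices on a cycle inside the difference set of `p` -/
def OnCyc (f : Cfg n → Cfg n) (g : Cfg n) (p : Cfg n × Cfg n) (c : Fin n) : Prop :=
  ∃ W : Finset (Fin n), BCycle f g W ∧ c ∈ W ∧ ∀ k ∈ W, p.1 k ≠ p.2 k

theorem bpath_of_cycle {b : Cfg n} {W : Finset (Fin n)} (h : BCycle f b W) {j i : Fin n} (hj : j ∈ W) (hi : i ∈ W) :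
    BPath f b j i := by
  obtain ⟨m, c, hc, rfl, hE⟩ := h
  obtain ⟨t, -, rfl⟩ := Finset.mem_image.1 hj
  obtain ⟨u, -, rfl⟩ := Finset.mem_image.1 hi
  have key : ∀ d : ℕ, BPath f b (c t) (c (t + (Fin.ofNat (m + 1) d))) := by
    intro d
    induction d with
    | zero =>
      have : t + Fin.ofNat (m + 1) 0 = t := by simp
      rw [this]
      exact ReflTransGen.refl
    | succ d ih =>
      have h2 := hE (t + Fin.ofNat (m + 1) d)
      have h3 : t + Fin.ofNat (m + 1) d + 1 = t + Fin.ofNat (m + 1) (d + 1) := by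
        rw [add_assoc]
        congr 1
        apply Fin.ext
        simp [Fin.val_add, Fin.ofNat]
      rw [h3] at h2
      exact ReflTransGen.tail ih h2
  have h4 := key (u - t).val
  have h5 : t + Fin.ofNat (m + 1) (u - t).val = u := by
    have : Fin.ofNat (m + 1) (u - t).val = u - t := by
      apply Fin.ext
      simp [Fin.ofNat, Nat.mod_eq_of_lt (u - t).isLt]
    rw [this]
    exact add_sub_cancel t u
  rwa [h5] at h4

/-- every coordinate where a closed pair differs is reached from a cycle of such coordinates -/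
theorem back {g : Cfg n} {p : Cfg n × Cfg n} (hg : ∀ k, p.1 k ≠ p.2 k → p.1 k = g k) (hp : Closed f p) {k : Fin n}
    (hk : p.1 k ≠ p.2 k) : ∃ c, OnCyc f g p c ∧ BPath f g c k := by
  classical
  let D : Finset (Fin n) := Finset.univ.filter (fun j => p.1 j ≠ p.2 j ∧ BPath f g j k)
  have hmemD : ∀ j, j ∈ D ↔ p.1 j ≠ p.2 j ∧ BPath f g j k := fun j => by
    simp only [D, Finset.mem_filter, Finset.mem_univ, true_and]
  have hD : D.Nonempty := ⟨k, (hmemD k).2 ⟨hk, ReflTransGen.refl⟩⟩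
  obtain ⟨m, c, hc, hE, hcD⟩ := exists_cycle_of_back (E := BArc f g) D hD (by
    intro l hl
    have hl' := (hmemD l).1 hl
    have h1 := hp l hl'.1
    obtain ⟨j, hj, hjA⟩ := exists_arc' (f := f) (k := l) (x := p.1) (y := p.2) (by rw [h1.1, h1.2]; exact hl'.1)
    rw [h1.1, hg j hj, hg l hl'.1] at hjA
    exact ⟨j, (hmemD j).2 ⟨hj, ReflTransGen.head hjA hl'.2⟩, hjA⟩)
  refine ⟨c 0, ⟨Finset.univ.image c, ⟨m, c, hc, rfl, hE⟩, Finset.mem_image_of_mem _ (Finset.mem_univ _), ?_⟩,
    ((hmemD _).1 (hcD 0)).2⟩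
  intro l hl
  obtain ⟨t, -, rfl⟩ := Finset.mem_image.1 hl
  exact ((hmemD _).1 (hcD t)).1

/-- the difference sets stay inside what is reached from the cycles of a closed pair -/
theorem spread {g : Cfg n} {A B : Set (Cfg n)} (hA : IsTrap f A) (hB : IsTrap f B)
    (hg : ∀ x ∈ A, ∀ y ∈ B, ∀ k, x k ≠ y k → x k = g k) {p q : Cfg n × Cfg n} (hpA : p.1 ∈ A ∧ p.2 ∈ B)
    (hp : Closed f p) (h : PReach f p q) : ∀ k, q.1 k ≠ q.2 k → ∃ c, OnCyc f g p c ∧ BPath f g c k := by
  unfold PReach at h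
  induction h with
  | refl => exact fun k hk => back (hg _ hpA.1 _ hpA.2) hp hk
  | @tail u w h1 h2 ih =>
    have huA := preach_mem hA hB h1 hpA
    have hwA := pstep_mem hA hB h2 huA
    obtain ⟨i, hi1, hi2, hi3, hi4⟩ := h2
    intro k hk
    by_cases hki : k = i
    · subst hki
      rcases hi4 hk with h5 | ⟨h5, h6⟩
      · exact ih k h5
      · obtain ⟨j, hj, hjA⟩ := exists_arc' h5
        obtain ⟨c, hc, hcj⟩ := ih j hj
        rw [← h6, hg _ huA.1 _ huA.2 j hj, hg _ hwA.1 _ hwA.2 k hk] at hjA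
        exact ⟨c, hc, ReflTransGen.tail hcj hjA⟩
    · refine ih k ?_
      rw [← (hi1 k hki).1, ← (hi1 k hki).2]
      exact hk

/-- a minimal element of a nonempty finite set for a preorder -/
theorem exists_minimal {α : Type} [Fintype α] (R : α → α → Prop) (hrefl : ∀ a, R a a)
    (htr : ∀ a b c, R a b → R b c → R a c) (P : α → Prop) (hP : ∃ a, P a) : ∃ a, P a ∧ ∀ c, P c → R c a → R a c := by
  classical
  have hex : ∃ d : ℕ, ∃ a, P a ∧ (Finset.univ.filter (fun c => R c a)).card = d := by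
    obtain ⟨a, ha⟩ := hP
    exact ⟨_, a, ha, rfl⟩
  obtain ⟨a, ha, hd⟩ := Nat.find_spec hex
  have hmin := fun d (hd : d < Nat.find hex) => Nat.find_min hex hd
  generalize Nat.find hex = d at hd hmin
  refine ⟨a, ha, ?_⟩
  intro c hc hca
  by_contra hac
  have hsub : Finset.univ.filter (fun e => R e c) ⊂ Finset.univ.filter (fun e => R e a) := by
    rw [Finset.ssubset_iff_of_subset]
    · exact ⟨a, by simp [hrefl], by simp [hac]⟩
    · intro e he
      simp only [Finset.mem_filter, Finset.mem_univ, true_and] at he ⊢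
      exact htr _ _ _ he hca
  exact hmin _ (by rw [← hd]; exact Finset.card_lt_card hsub) ⟨c, hc, rfl⟩

/-- the core: a strong component of the `g`-arcs in which no vertex meets all cycles -/
theorem core {A B : Set (Cfg n)} (hA : IsAttractor f A) (hB : IsAttractor f B) (hAB : A ≠ B)
    (h : hull A ∩ hull B ≠ ∅) (hc : ∀ k, (∃ c, ∀ x ∈ A, x k = c) ∨ (∃ c, ∀ y ∈ B, y k = c)) :
    ∃ (g : Cfg n) (K : Finset (Fin n)),
      (∀ j ∈ K, ∀ i ∈ K, ReflTransGen (fun p q => p ∈ K ∧ q ∈ K ∧ BArc f g p q) j i) ∧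
      ∀ v, ∃ W, BCycle f g W ∧ W ⊆ K ∧ v ∉ W := by
  classical
  -- the common pattern of the differences
  obtain ⟨g, hg⟩ : ∃ g : Cfg n, ∀ x ∈ A, ∀ y ∈ B, ∀ k, x k ≠ y k → x k = g k := by
    have h1 : ∀ k, ∃ c, ∀ x ∈ A, ∀ y ∈ B, x k ≠ y k → x k = c := by
      intro k
      rcases hc k with ⟨c, hc⟩ | ⟨c, hc⟩
      · exact ⟨c, fun x hx y _ _ => hc x hx⟩
      · refine ⟨!c, fun x _ y hy hne => ?_⟩
        rw [hc y hy] at hne
        cases h2 : x k <;> cases c <;> simp_all
    choose g hg using h1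
    exact ⟨g, fun x hx y hy k => hg k x hx y hy⟩
  have hns := not_sep hA.1 hB.1 h
  have hne : ∀ p : Cfg n × Cfg n, p.1 ∈ A ∧ p.2 ∈ B → ∃ k, p.1 k ≠ p.2 k := by
    intro p hp
    by_contra h1
    push Not at h1
    have h2 : p.1 = p.2 := funext h1
    exact hAB (att_eq hA hB hp.1 (by rw [h2]; exact hp.2))
  -- a pair in a terminal class
  obtain ⟨Q₀, hQ₀, hterm⟩ := exists_minimal (α := Cfg n × Cfg n) (fun p q => PReach f q p)
    (fun _ => ReflTransGen.refl) (fun _ _ _ h1 h2 => ReflTransGen.trans h2 h1) (fun p => p.1 ∈ A ∧ p.2 ∈ B)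
    (by
      obtain ⟨x, hx⟩ := hA.1
      obtain ⟨y, hy⟩ := hB.1
      exact ⟨(x, y), hx, hy⟩)
  have hmem : ∀ Q, PReach f Q₀ Q → Q.1 ∈ A ∧ Q.2 ∈ B := fun Q hQ => preach_mem hA.2.1 hB.2.1 hQ hQ₀
  have hterm' : ∀ Q, PReach f Q₀ Q → PReach f Q Q₀ := fun Q hQ => hterm Q (hmem Q hQ) hQ
  have hcov : ∀ v, ∃ Q, PReach f Q₀ Q ∧ Q.1 v = Q.2 v := by
    intro v
    rcases hc v with ⟨c, hcv⟩ | ⟨c, hcv⟩
    · obtain ⟨y, hy, hyv⟩ : ∃ y ∈ B, y v = c := by
        by_contra h1
        push Not at h1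
        refine hns v c ⟨hcv, fun y hy => ?_⟩
        have h2 := h1 y hy
        cases h3 : y v <;> cases c <;> simp_all
      obtain ⟨x', hx'⟩ := lead₂ (att_reach hB hQ₀.2 hy) Q₀.1
      have hx'' : PReach f Q₀ (x', y) := hx'
      exact ⟨(x', y), hx'', by rw [hcv _ (hmem _ hx'').1]; exact hyv.symm⟩
    · obtain ⟨x, hx, hxv⟩ : ∃ x ∈ A, x v = c := by
        by_contra h1
        push Not at h1
        refine hns v (!c) ⟨fun x hx => ?_, fun y hy => ?_⟩
        · have h2 := h1 x hx
          cases h3 : x v <;> cases c <;> simp_all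
        · rw [hcv y hy, Bool.not_not]
      obtain ⟨y', hy'⟩ := lead₁ (att_reach hA hQ₀.1 hx) Q₀.2
      have hy'' : PReach f Q₀ (x, y') := hy'
      exact ⟨(x, y'), hy'', by rw [hcv _ (hmem _ hy'').2]; exact hxv⟩
  -- the relevant cycles
  let P : Fin n → Prop := fun c => ∃ Q, PReach f Q₀ Q ∧ Closed f Q ∧ OnCyc f g Q c
  have hP : ∃ c, P c := by
    obtain ⟨Q, hQ, hQc, -⟩ := exists_closed (f := f) Q₀
    have hQm := hmem Q hQ
    obtain ⟨k, hk⟩ := hne Q hQm
    obtain ⟨c, hc', -⟩ := back (hg _ hQm.1 _ hQm.2) hQc hk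
    exact ⟨c, Q, hQ, hQc, hc'⟩
  obtain ⟨c₀, hc₀, hmin⟩ := exists_minimal (BPath f g) (fun _ => ReflTransGen.refl)
    (fun _ _ _ h1 h2 => ReflTransGen.trans h1 h2) P hP
  let K : Finset (Fin n) := Finset.univ.filter (fun k => BPath f g c₀ k ∧ BPath f g k c₀)
  have hK : ∀ k, k ∈ K ↔ BPath f g c₀ k ∧ BPath f g k c₀ := fun k => by simp [K]
  refine ⟨g, K, ?_, ?_⟩
  · -- strongly connected
    have hpath : ∀ j i, BPath f g j i → j ∈ K → i ∈ K → ReflTransGen (fun p q => p ∈ K ∧ q ∈ K ∧ BArc f g p q) j i := by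
      intro j i hji
      unfold BPath at hji
      induction hji with
      | refl => exact fun _ _ => ReflTransGen.refl
      | @tail p q h1 h2 ih =>
        intro hj hq
        have hp : p ∈ K := (hK p).2 ⟨ReflTransGen.trans ((hK j).1 hj).1 h1, ReflTransGen.head h2 ((hK q).1 hq).2⟩
        exact ReflTransGen.tail (ih hj hp) ⟨hp, hq, h2⟩
    intro j hj i hi
    exact hpath j i (ReflTransGen.trans ((hK j).1 hj).2 ((hK i).1 hi).1) hj hi
  · intro v
    obtain ⟨Q, hQ, hQv⟩ := hcov v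
    obtain ⟨Q', hQ', hQ'c, hQ'D⟩ := exists_closed (f := f) Q
    have hQ₀' : PReach f Q₀ Q' := ReflTransGen.trans hQ hQ'
    obtain ⟨R, hR, hRc, W₀, hW₀, hcW₀, hW₀R⟩ := hc₀
    have hQR : PReach f Q' R := ReflTransGen.trans (hterm' _ hQ₀') hR
    obtain ⟨c, hc', hcc₀⟩ := spread hA.2.1 hB.2.1 hg (hmem _ hQ₀') hQ'c hQR c₀ (hW₀R c₀ hcW₀)
    have h1 := hmin c ⟨Q', hQ₀', hQ'c, hc'⟩ hcc₀
    obtain ⟨W, hW, hcW, hWQ⟩ := hc'
    refine ⟨W, hW, ?_, ?_⟩
    · intro k hk
      exact (hK k).2 ⟨ReflTransGen.trans h1 (bpath_of_cycle hW hcW hk), ReflTransGen.trans (bpath_of_cycle hW hk hcW) hcc₀⟩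
    · intro hvW
      exact hQ'D v (hWQ v hvW) hQv

/-- an arc leaving a set on the way to another set -/
theorem leave {E : Fin n → Fin n → Prop} {S : Finset (Fin n)} {p q : Fin n} (h : ReflTransGen E p q) (hp : p ∈ S)
    (hq : q ∉ S) : ∃ a c, a ∈ S ∧ c ∉ S ∧ E a c ∧ ReflTransGen E c q := by
  induction h using ReflTransGen.head_induction_on with
  | refl => exact absurd hp hq
  | @head u w h1 h2 ih =>
    by_cases hw : w ∈ S
    · exact ih hw
    · exact ⟨u, w, hp, hw, h1, h2⟩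

theorem three_cycles {b : Cfg n} {K : Finset (Fin n)}
    (hsc : ∀ j ∈ K, ∀ i ∈ K, ReflTransGen (fun p q => p ∈ K ∧ q ∈ K ∧ BArc f b p q) j i)
    (hav : ∀ v, ∃ W, BCycle f b W ∧ W ⊆ K ∧ v ∉ W) (hn : 0 < n) :
    ∃ W₁ W₂ W₃, BCycle f b W₁ ∧ BCycle f b W₂ ∧ BCycle f b W₃ ∧ W₁ ≠ W₂ ∧ W₁ ≠ W₃ ∧ W₂ ≠ W₃ := by
  classical
  have hne : ∀ W, BCycle f b W → W.Nonempty := by
    rintro W ⟨m, c, -, rfl, -⟩
    exact ⟨c 0, Finset.mem_image_of_mem _ (Finset.mem_univ _)⟩
  obtain ⟨W₁, h1, h1K, -⟩ := hav ⟨0, hn⟩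
  obtain ⟨v, hv⟩ := hne W₁ h1
  obtain ⟨W₂, h2, h2K, hv2⟩ := hav v
  have h12 : W₁ ≠ W₂ := by
    rintro rfl
    exact hv2 hv
  by_cases hint : ∃ u, u ∈ W₁ ∧ u ∈ W₂
  · obtain ⟨u, hu1, hu2⟩ := hint
    obtain ⟨W₃, h3, h3K, hu3⟩ := hav u
    refine ⟨W₁, W₂, W₃, h1, h2, h3, h12, ?_, ?_⟩
    · rintro rfl
      exact hu3 hu1
    · rintro rfl
      exact hu3 hu2
  · push Not at hint
    obtain ⟨w, hw⟩ := hne W₂ h2
    have hw1 : w ∉ W₁ := fun h => hint w h hw
    obtain ⟨a, c, ha, hc, hE, hcw⟩ := leave (hsc v (h1K hv) w (h2K hw)) hv hw1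
    have hback := hsc c hE.2.1 a hE.1
    obtain ⟨m, g, hg, hgE, ⟨t, ht⟩, ⟨t', ht'⟩⟩ := exists_cycle hE hback
    refine ⟨W₁, W₂, Finset.univ.image g, h1, h2, ⟨m, g, hg, rfl, fun t => (hgE t).2.2⟩, h12, ?_, ?_⟩
    · intro h
      apply hc
      rw [h, ← ht']
      exact Finset.mem_image_of_mem _ (Finset.mem_univ _)
    · intro h
      apply hint a ha
      rw [h, ← ht]
      exact Finset.mem_image_of_mem _ (Finset.mem_univ _)

end NSep
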