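import Pool.Agent.MP_d0ff89_co.Levels
import Pool.Agent.MP_d0ff89_co.Fixed

/-!
From strong components to levels, and the final statements.
-/

set_option autoImplicit false

open Relation

namespace NSep

variable {n : ℕ}

theorem separating_of_components (f : Cfg n → Cfg n)
    (h : ∀ a : Fin n, ∃ v : Fin n,
      (∀ W : Finset (Fin n), (∀ k ∈ W, SameComp f a k) → PosCycle f W → v ∈ W) ∨
      (∃ σ : Cfg n, ∀ s j i, Arc f s j i → SameComp f a j → SameComp f a i → i ≠ v → s = (σ j == σ i))) :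
    Separating f := by
  classical
  have hrefl : ∀ a, Path f a a := fun _ => ReflTransGen.refl
  have htr : ∀ {a b c}, Path f a b → Path f b c → Path f a c := fun h1 h2 => ReflTransGen.trans h1 h2
  let anc : Fin n → Finset (Fin n) := fun k => Finset.univ.filter (fun j => Path f j k)
  have hanc : ∀ j k, j ∈ anc k ↔ Path f j k := fun j k => by simp [anc]
  let cmp : Fin n → Finset (Fin n) := fun k => Finset.univ.filter (fun j => SameComp f k j)
  have hcmp : ∀ j k, j ∈ cmp k ↔ SameComp f k j := fun j k => by simp [cmp]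
  have hne : ∀ k, (cmp k).Nonempty := fun k => ⟨k, (hcmp k k).2 ⟨hrefl k, hrefl k⟩⟩
  let κ : Fin n → Fin n := fun k => (cmp k).min' (hne k)
  let ρ : Fin n → ℕ := fun k => (anc k).card * (n + 1) + (κ k).val
  have hκ : ∀ j k, SameComp f j k → κ j = κ k := by
    intro j k hjk
    have : cmp j = cmp k := by
      ext l
      rw [hcmp, hcmp]
      exact ⟨fun h1 => ⟨htr hjk.2 h1.1, htr h1.2 hjk.1⟩, fun h1 => ⟨htr hjk.1 h1.1, htr h1.2 hjk.2⟩⟩
    simp only [κ, this]
  have hκ' : ∀ k, SameComp f k (κ k) := fun k => (hcmp _ _).1 ((cmp k).min'_mem (hne k))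
  have hsub : ∀ j k, Path f j k → anc j ⊆ anc k := by
    intro j k hjk l hl
    rw [hanc] at hl ⊢
    exact htr hl hjk
  have hsame : ∀ j k, SameComp f j k → ρ j = ρ k := by
    intro j k hjk
    have h1 : anc j = anc k := Finset.Subset.antisymm (hsub _ _ hjk.1) (hsub _ _ hjk.2)
    simp only [ρ, h1, hκ j k hjk]
  have hlt : ∀ j k, Path f j k → ¬ Path f k j → ρ j < ρ k := by
    intro j k h1 h2
    have h3 : (anc j).card < (anc k).card := by
      apply Finset.card_lt_card
      rw [Finset.ssubset_iff_of_subset (hsub _ _ h1)]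
      exact ⟨k, (hanc k k).2 (hrefl k), fun h4 => h2 ((hanc k j).1 h4)⟩
    have h4 : (κ j).val < n + 1 := by
      have := (κ j).isLt
      omega
    calc ρ j = (anc j).card * (n + 1) + (κ j).val := rfl
      _ < ((anc j).card + 1) * (n + 1) := by
          rw [add_mul, one_mul]
          omega
      _ ≤ (anc k).card * (n + 1) := Nat.mul_le_mul_right _ h3
      _ ≤ ρ k := Nat.le_add_right _ _
  have heq : ∀ j k, ρ j = ρ k → SameComp f j k := by
    intro j k h1
    have hj : (κ j).val < n + 1 := by have := (κ j).isLt; omega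
    have hk : (κ k).val < n + 1 := by have := (κ k).isLt; omega
    have h2 : (κ j).val = (κ k).val := by
      have e1 : ρ j % (n + 1) = (κ j).val := by
        simp only [ρ]
        rw [Nat.mul_add_mod', Nat.mod_eq_of_lt hj]
      have e2 : ρ k % (n + 1) = (κ k).val := by
        simp only [ρ]
        rw [Nat.mul_add_mod', Nat.mod_eq_of_lt hk]
      rw [← e1, ← e2, h1]
    have h3 : κ j = κ k := Fin.ext h2
    have h4 := hκ' j
    have h5 := hκ' k
    rw [← h3] at h5
    exact ⟨htr h4.1 h5.2, htr h5.1 h4.2⟩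
  have hρ : ∀ s j i, Arc f s j i → ρ j ≤ ρ i := by
    intro s j i hA
    have h1 : Path f j i := ReflTransGen.single ⟨s, hA⟩
    by_cases h2 : Path f i j
    · exact (hsame j i ⟨h1, h2⟩).le
    · exact (hlt j i h1 h2).le
  refine main_levels hρ ?_
  intro a
  obtain ⟨v, h1 | ⟨σ, h1⟩⟩ := h a
  · exact ⟨v, Or.inl fun W hW hpos => h1 W (fun k hk => heq _ _ (hW k hk).symm) hpos⟩
  · exact ⟨v, Or.inr ⟨σ, fun s j i hA hj hi hiv => h1 s j i hA (heq _ _ hj.symm) (heq _ _ hi.symm) hiv⟩⟩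

theorem three_positive_cycles (f : Cfg n → Cfg n) (A B : Set (Cfg n)) (hA : IsAttractor f A) (hB : IsAttractor f B)
    (hAB : A ≠ B) (h : hull A ∩ hull B ≠ ∅)
    (hc : ∀ k, (∃ c, ∀ x ∈ A, x k = c) ∨ (∃ c, ∀ y ∈ B, y k = c)) :
    ∃ W₁ W₂ W₃ : Finset (Fin n), PosCycle f W₁ ∧ PosCycle f W₂ ∧ PosCycle f W₃ ∧ W₁ ≠ W₂ ∧ W₁ ≠ W₃ ∧ W₂ ≠ W₃ := by
  obtain ⟨g, K, hsc, hav⟩ := core hA hB hAB h hc
  have hn : 0 < n := by
    rcases Nat.eq_zero_or_pos n with rfl | h1
    · exfalso
      obtain ⟨x, hx⟩ := hA.1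
      obtain ⟨y, hy⟩ := hB.1
      have hxy : x = y := funext fun k => k.elim0
      subst hxy
      exact hAB (att_eq hA hB hx hy)
    · exact h1
  obtain ⟨W₁, W₂, W₃, h1, h2, h3, h4, h5, h6⟩ := three_cycles hsc hav hn
  exact ⟨W₁, W₂, W₃, h1.pos, h2.pos, h3.pos, h4, h5, h6⟩

end NSep
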