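import Pool.Agent.MP_d0ff89_co.Basic

/-!
Level-by-level comparison of two attractors.
-/

set_option autoImplicit false

open Relation

namespace NSep

variable {n : ℕ} {f : Cfg n → Cfg n} {ρ : Fin n → ℕ}

/-- `x` and `y` agree below level `r` -/
def Agree (ρ : Fin n → ℕ) (r : ℕ) (x y : Cfg n) : Prop := ∀ k, ρ k < r → x k = y k

theorem Agree.symm {r : ℕ} {x y : Cfg n} (h : Agree ρ r x y) : Agree ρ r y x := fun k hk => (h k hk).symm

theorem update_flip_ne {x : Cfg n} {i k : Fin n} (h : k ≠ i) : Function.update x i (!x i) k = x k :=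
  Function.update_of_ne h _ _

/-- the part of the network below level `r` is autonomous -/
theorem sync (hρ : ∀ s j i, Arc f s j i → ρ j ≤ ρ i) {r : ℕ} {x x' : Cfg n} (h : Reach f x x') :
    ∀ y, Agree ρ r x y → ∃ y', Reach f y y' ∧ Agree ρ r x' y' ∧ ∀ k, r ≤ ρ k → y' k = y k := by
  unfold Reach at h
  induction h with
  | refl => exact fun y hy => ⟨y, ReflTransGen.refl, hy, fun _ _ => rfl⟩
  | @tail u w _ h2 ih =>
    intro y hy
    obtain ⟨y', h3, h4, h5⟩ := ih y hy
    obtain ⟨i, hi, rfl⟩ := h2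
    by_cases hir : ρ i < r
    · have h6 : f u i = f y' i := by
        by_contra hne
        obtain ⟨j, hj, hjA⟩ := exists_arc' hne
        exact hj (h4 j (lt_of_le_of_lt (hρ _ _ _ hjA) hir))
      refine ⟨Function.update y' i (!y' i), ReflTransGen.tail h3 ⟨i, ?_, rfl⟩, ?_, ?_⟩
      · rw [← h6, ← h4 i hir]
        exact hi
      · intro k hk
        by_cases hki : k = i
        · subst hki
          rw [Function.update_self, Function.update_self, h4 k hk]
        · rw [update_flip_ne hki, update_flip_ne hki]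
          exact h4 k hk
      · intro k hk
        have hki : k ≠ i := by
          rintro rfl
          omega
        rw [update_flip_ne hki]
        exact h5 k hk
    · refine ⟨y', h3, ?_, h5⟩
      intro k hk
      have hki : k ≠ i := by
        rintro rfl
        omega
      rw [update_flip_ne hki]
      exact h4 k hk

/-- the pair statement at level `r` -/
def Pair (ρ : Fin n → ℕ) (A B : Set (Cfg n)) (r : ℕ) : Prop := ∃ x ∈ A, ∃ y ∈ B, Agree ρ r x y

theorem Pair.symm {A B : Set (Cfg n)} {r : ℕ} (h : Pair ρ A B r) : Pair ρ B A r := by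
  obtain ⟨x, hx, y, hy, hxy⟩ := h
  exact ⟨y, hy, x, hx, hxy.symm⟩

/-- any `x ∈ A`, `y ∈ B`: some `y' ∈ B` has the low part of `x` and the high part of `y` -/
theorem Pair.move (hρ : ∀ s j i, Arc f s j i → ρ j ≤ ρ i) {A B : Set (Cfg n)} (hA : IsAttractor f A) (hB : IsAttractor f B)
    {r : ℕ} (h : Pair ρ A B r) {x y : Cfg n} (hx : x ∈ A) (hy : y ∈ B) :
    ∃ y' ∈ B, Agree ρ r x y' ∧ ∀ k, r ≤ ρ k → y' k = y k := by
  obtain ⟨x₁, hx₁, y₁, hy₁, h1⟩ := h
  obtain ⟨x₂, hx₂, h2, -⟩ := sync hρ (att_reach hB hy₁ hy) x₁ h1.symm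
  have hx₂A : x₂ ∈ A := trap_reach hA.2.1 hx₁ hx₂
  obtain ⟨y', hy', h3, h4⟩ := sync hρ (att_reach hA hx₂A hx) y h2.symm
  exact ⟨y', trap_reach hB.2.1 hy hy', h3, h4⟩

/-! ### a vertex meets all positive cycles of the level -/

theorem step_pos (hρ : ∀ s j i, Arc f s j i → ρ j ≤ ρ i) {A B : Set (Cfg n)} (hA : IsAttractor f A) (hB : IsAttractor f B)
    (hns : ∀ k c, ¬ ((∀ x ∈ A, x k = c) ∧ (∀ y ∈ B, y k = !c))) {r : ℕ} (hP : Pair ρ A B r) (v : Fin n)
    (hv : ∀ W : Finset (Fin n), (∀ k ∈ W, ρ k = r) → PosCycle f W → v ∈ W) : Pair ρ A B (r + 1) := by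
  classical
  by_cases hex : ∃ d : ℕ, ∃ x ∈ A, ∃ y ∈ B, Agree ρ r x y ∧ (ρ v = r → x v = y v) ∧
      (Finset.univ.filter (fun k => ρ k = r ∧ x k ≠ y k)).card = d
  · obtain ⟨x, hx, y, hy, hxy, hxv, hd⟩ := Nat.find_spec hex
    have hmin := fun d (hd : d < Nat.find hex) => Nat.find_min hex hd
    generalize Nat.find hex = d at hd hmin
    by_cases hd0 : d = 0
    · refine ⟨x, hx, y, hy, ?_⟩
      intro k hk
      rcases Nat.lt_succ_iff_lt_or_eq.1 hk with h1 | h1
      · exact hxy k h1
      · by_contra hne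
        have h2 : k ∈ Finset.univ.filter (fun k => ρ k = r ∧ x k ≠ y k) := by simp [h1, hne]
        rw [hd0, Finset.card_eq_zero] at hd
        rw [hd] at h2
        exact absurd h2 (Finset.notMem_empty _)
    · exfalso
      have key : ∀ k ∈ Finset.univ.filter (fun k => ρ k = r ∧ x k ≠ y k), f x k = x k ∧ f y k = y k := by
        intro k hk
        have hk' : ρ k = r ∧ x k ≠ y k := by simpa using hk
        have hkv : k ≠ v := by
          rintro rfl
          exact hk'.2 (hxv hk'.1)
        have hlow : ∀ l, ρ l < r → l ≠ k := by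
          rintro l hl rfl
          omega
        constructor
        · by_contra hne
          refine hmin (d - 1) (by omega) ⟨Function.update x k (!x k), hA.2.1 x hx _ ⟨k, hne, rfl⟩, y, hy, ?_, ?_, ?_⟩
          · intro l hl
            rw [update_flip_ne (hlow l hl)]
            exact hxy l hl
          · intro h1
            rw [update_flip_ne hkv.symm]
            exact hxv h1
          · have hset : Finset.univ.filter (fun l => ρ l = r ∧ Function.update x k (!x k) l ≠ y l) =
                (Finset.univ.filter (fun k => ρ k = r ∧ x k ≠ y k)).erase k := by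
              ext l
              by_cases hl : l = k
              · subst hl
                have : (!x l) = y l := by
                  have h5 := hk'.2
                  cases h2 : x l <;> cases h3 : y l <;> simp_all
                simp [this]
              · simp [hl]
            rw [hset, Finset.card_erase_of_mem hk, hd]
        · by_contra hne
          refine hmin (d - 1) (by omega) ⟨x, hx, Function.update y k (!y k), hB.2.1 y hy _ ⟨k, hne, rfl⟩, ?_, ?_, ?_⟩
          · intro l hl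
            rw [update_flip_ne (hlow l hl)]
            exact hxy l hl
          · intro h1
            rw [update_flip_ne hkv.symm]
            exact hxv h1
          · have hset : Finset.univ.filter (fun l => ρ l = r ∧ x l ≠ Function.update y k (!y k) l) =
                (Finset.univ.filter (fun k => ρ k = r ∧ x k ≠ y k)).erase k := by
              ext l
              by_cases hl : l = k
              · subst hl
                have : x l = (!y l) := by
                  have h5 := hk'.2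
                  cases h2 : x l <;> cases h3 : y l <;> simp_all
                simp [this]
              · simp [hl]
            rw [hset, Finset.card_erase_of_mem hk, hd]
      have hne : (Finset.univ.filter (fun k => ρ k = r ∧ x k ≠ y k)).Nonempty := by
        rw [← Finset.card_pos, hd]
        omega
      obtain ⟨m, c, hc, hE, hcD⟩ := exists_cycle_of_back (E := fun j i => Arc f (x j == x i) j i) _ hne (by
        intro k hk
        have hk' : ρ k = r ∧ x k ≠ y k := by simpa using hk
        have h1 := key k hk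
        obtain ⟨j, hj, hjA⟩ := exists_arc' (f := f) (k := k) (x := x) (y := y) (by rw [h1.1, h1.2]; exact hk'.2)
        have h2 := hρ _ _ _ hjA
        have h3 : ρ j = r := by
          by_contra h4
          exact hj (hxy j (by omega))
        rw [h1.1] at hjA
        exact ⟨j, by simp [h3, hj], hjA⟩)
      have hpos := posCycle_of x hc hE
      have hmemD : ∀ k ∈ Finset.univ.image c, ρ k = r ∧ x k ≠ y k := by
        intro k hk
        obtain ⟨t, -, rfl⟩ := Finset.mem_image.1 hk
        simpa using hcD t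
      have h1 := hv _ (fun k hk => (hmemD k hk).1) hpos
      have h2 := hmemD v h1
      exact h2.2 (hxv h2.1)
  · exfalso
    push Not at hex
    have hall : ∀ x ∈ A, ∀ y ∈ B, Agree ρ r x y → ρ v = r ∧ x v ≠ y v := by
      intro x hx y hy hxy
      by_contra h1
      refine hex _ x hx y hy hxy ?_ rfl
      intro h2
      by_contra h3
      exact h1 ⟨h2, h3⟩
    obtain ⟨x₀, hx₀, y₀, hy₀, h0⟩ := id hP
    have hvr := (hall x₀ hx₀ y₀ hy₀ h0).1
    have e1 : ∀ x ∈ A, x v ≠ y₀ v := by
      intro x hx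
      obtain ⟨y', hy', h1, h2⟩ := hP.move hρ hA hB hx hy₀
      have h3 := (hall x hx y' hy' h1).2
      rwa [h2 v hvr.ge] at h3
    have e2 : ∀ y ∈ B, y v ≠ x₀ v := by
      intro y hy
      obtain ⟨x', hx', h1, h2⟩ := hP.symm.move hρ hB hA hy hx₀
      have h3 := (hall x' hx' y hy h1.symm).2
      rw [h2 v hvr.ge] at h3
      exact h3.symm
    refine hns v (!y₀ v) ⟨?_, ?_⟩
    · intro x hx
      have h1 := e1 x hx
      cases h2 : x v <;> cases h3 : y₀ v <;> simp_all
    · intro y hy
      have h1 := e2 y hy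
      have h4 := e1 x₀ hx₀
      cases h2 : y v <;> cases h3 : y₀ v <;> cases h5 : x₀ v <;> simp_all

/-! ### after a switching all negative arcs of the level enter one vertex -/

section mono
variable {σ : Cfg n} {r : ℕ} {v : Fin n}

theorem mono (hρ : ∀ s j i, Arc f s j i → ρ j ≤ ρ i)
    (hσ : ∀ s j i, Arc f s j i → ρ j = r → ρ i = r → i ≠ v → s = (σ j == σ i)) {x y : Cfg n} (hxy : Agree ρ r x y)
    (hon : ∀ k, ρ k = r → x k ≠ σ k → y k ≠ σ k) {i : Fin n} (hi : ρ i = r) (hiv : i ≠ v) (h : f x i ≠ σ i) :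
    f y i ≠ σ i := by
  intro hy
  obtain ⟨j, hj, hjA⟩ := exists_arc' (f := f) (k := i) (x := x) (y := y) (by rw [hy]; exact h)
  have h2 := hρ _ _ _ hjA
  have h3 : ρ j = r := by
    by_contra h4
    exact hj (hxy j (by omega))
  have h4 := hσ _ _ _ hjA h3 hi hiv
  have h5 : x j = σ j := by
    by_contra h6
    have h7 := hon j h3 h6
    apply hj
    cases h8 : x j <;> cases h9 : y j <;> cases h10 : σ j <;> simp_all
  rw [h5] at h4
  cases h8 : f x i <;> cases h9 : σ j <;> cases h10 : σ i <;> simp_all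

/-- the stability of `m` in `A` -/
def Stable (f : Cfg n → Cfg n) (ρ : Fin n → ℕ) (r : ℕ) (v : Fin n) (σ : Cfg n) (A : Set (Cfg n)) (m : Cfg n) : Prop :=
  ∀ x ∈ A, (∀ k, ρ k = r → x k = m k) → ∀ k, ρ k = r → k ≠ v → m k ≠ σ k → f x k ≠ σ k

theorem persist (hρ : ∀ s j i, Arc f s j i → ρ j ≤ ρ i)
    (hσ : ∀ s j i, Arc f s j i → ρ j = r → ρ i = r → i ≠ v → s = (σ j == σ i)) {A : Set (Cfg n)} (hA : IsAttractor f A)
    {m : Cfg n} (hst : Stable f ρ r v σ A m) {T : Set (Cfg n)} (hT : IsTrap f T)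
    (hTv : ρ v = r → m v ≠ σ v → ∀ y ∈ T, y v ≠ σ v) {x₀ y₀ y : Cfg n} (hx₀ : x₀ ∈ A) (hx₀m : ∀ k, ρ k = r → x₀ k = m k)
    (h0 : Agree ρ r x₀ y₀) (hy₀T : y₀ ∈ T) (hon : ∀ k, ρ k = r → m k ≠ σ k → y₀ k ≠ σ k) (h : Reach f y₀ y) :
    ∀ k, ρ k = r → m k ≠ σ k → y k ≠ σ k := by
  have main : (∃ x ∈ A, (∀ k, ρ k = r → x k = m k) ∧ Agree ρ r x y) ∧ y ∈ T ∧ ∀ k, ρ k = r → m k ≠ σ k → y k ≠ σ k := by
    unfold Reach at h
    induction h with
    | refl => exact ⟨⟨x₀, hx₀, hx₀m, h0⟩, hy₀T, hon⟩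
    | @tail u w _ h2 ih =>
      obtain ⟨⟨x, hx, hxm, hxu⟩, huT, hu⟩ := ih
      have hwT := hT u huT w h2
      obtain ⟨i, hi, rfl⟩ := h2
      rcases lt_trichotomy (ρ i) r with hir | hir | hir
      · have h6 : f x i = f u i := by
          by_contra hne
          obtain ⟨j, hj, hjA⟩ := exists_arc' hne
          exact hj (hxu j (lt_of_le_of_lt (hρ _ _ _ hjA) hir))
        refine ⟨⟨Function.update x i (!x i), hA.2.1 x hx _ ⟨i, ?_, rfl⟩, ?_, ?_⟩, hwT, ?_⟩
        · rw [h6, hxu i hir]
          exact hi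
        · intro k hk
          have hki : k ≠ i := by
            rintro rfl
            omega
          rw [update_flip_ne hki]
          exact hxm k hk
        · intro k hk
          by_cases hki : k = i
          · subst hki
            rw [Function.update_self, Function.update_self, hxu k hk]
          · rw [update_flip_ne hki, update_flip_ne hki]
            exact hxu k hk
        · intro k hk hmk
          have hki : k ≠ i := by
            rintro rfl
            omega
          rw [update_flip_ne hki]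
          exact hu k hk hmk
      · refine ⟨⟨x, hx, hxm, ?_⟩, hwT, ?_⟩
        · intro k hk
          have hki : k ≠ i := by
            rintro rfl
            omega
          rw [update_flip_ne hki]
          exact hxu k hk
        · intro k hk hmk
          by_cases hki : k = i
          · subst hki
            rw [Function.update_self]
            have h7 := hu k hk hmk
            by_cases hkv : k = v
            · subst hkv
              have h8 := hTv hk hmk _ hwT
              rwa [Function.update_self] at h8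
            · exfalso
              have h8 := hst x hx hxm k hk hkv hmk
              have h9 := mono hρ hσ hxu (fun l hl hxl => hu l hl (by rwa [hxm l hl] at hxl)) hk hkv h8
              apply hi
              cases h10 : f u k <;> cases h11 : u k <;> cases h12 : σ k <;> simp_all
          · rw [update_flip_ne hki]
            exact hu k hk hmk
      · have hlt : ∀ k, ρ k ≤ r → k ≠ i := by
          rintro k hk rfl
          omega
        refine ⟨⟨x, hx, hxm, ?_⟩, hwT, ?_⟩
        · intro k hk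
          rw [update_flip_ne (hlt k hk.le)]
          exact hxu k hk
        · intro k hk hmk
          rw [update_flip_ne (hlt k hk.le)]
          exact hu k hk hmk
  exact main.2.2

theorem exists_min (hρ : ∀ s j i, Arc f s j i → ρ j ≤ ρ i)
    (hσ : ∀ s j i, Arc f s j i → ρ j = r → ρ i = r → i ≠ v → s = (σ j == σ i)) {A : Set (Cfg n)} (hA : IsAttractor f A) :
    ∃ m ∈ A, Stable f ρ r v σ A m ∧ (∀ x ∈ A, ∀ k, ρ k = r → m k ≠ σ k → x k ≠ σ k) ∧
      ((ρ v = r → ∃ a ∈ A, a v = σ v) → ρ v = r → m v = σ v) := by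
  classical
  -- choose `m` with the fewest on-coordinates, off at `v` if possible
  have hex : ∃ d : ℕ, ∃ m ∈ A, ((ρ v = r → ∃ a ∈ A, a v = σ v) → ρ v = r → m v = σ v) ∧
      (Finset.univ.filter (fun k => ρ k = r ∧ m k ≠ σ k)).card = d := by
    by_cases h1 : ρ v = r ∧ ∃ a ∈ A, a v = σ v
    · obtain ⟨-, a, ha, hav⟩ := h1
      exact ⟨_, a, ha, fun _ _ => hav, rfl⟩
    · obtain ⟨a, ha⟩ := hA.1
      exact ⟨_, a, ha, fun h2 h3 => absurd ⟨h3, h2 h3⟩ h1, rfl⟩
  obtain ⟨m, hm, hmv, hd⟩ := Nat.find_spec hex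
  have hmin := fun d (hd : d < Nat.find hex) => Nat.find_min hex hd
  generalize Nat.find hex = d at hd hmin
  have hst : Stable f ρ r v σ A m := by
    intro x hx hxm k hk hkv hmk hfx
    have hxk : x k ≠ σ k := by rwa [hxm k hk]
    have hmem : k ∈ Finset.univ.filter (fun k => ρ k = r ∧ m k ≠ σ k) := by simp [hk, hmk]
    have hd0 : 0 < d := by
      rw [← hd]
      exact Finset.card_pos.2 ⟨k, hmem⟩
    refine hmin (d - 1) (by omega) ⟨Function.update x k (!x k), hA.2.1 x hx _ ⟨k, ?_, rfl⟩, ?_, ?_⟩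
    · rw [hfx]
      exact hxk.symm
    · intro h1 h2
      rw [update_flip_ne (Ne.symm hkv), hxm v h2]
      exact hmv h1 h2
    · have hset : Finset.univ.filter (fun l => ρ l = r ∧ Function.update x k (!x k) l ≠ σ l) =
          (Finset.univ.filter (fun k => ρ k = r ∧ m k ≠ σ k)).erase k := by
        ext l
        by_cases hl : l = k
        · subst hl
          have : (!x l) = σ l := by
            cases h2 : x l <;> cases h3 : σ l <;> simp_all
          simp [this]
        · simp only [Finset.mem_filter, Finset.mem_univ, true_and, Finset.mem_erase, ne_eq, hl, not_false_iff]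
          constructor
          · rintro ⟨h3, h4⟩
            rw [update_flip_ne hl, hxm l h3] at h4
            exact ⟨h3, h4⟩
          · rintro ⟨h3, h4⟩
            rw [update_flip_ne hl, hxm l h3]
            exact ⟨h3, h4⟩
      rw [hset, Finset.card_erase_of_mem hmem, hd]
  refine ⟨m, hm, hst, ?_, hmv⟩
  intro x hx
  refine persist hρ hσ hA hst hA.2.1 ?_ hm (fun _ _ => rfl) (fun _ _ => rfl) hm (fun _ _ h => h) (att_reach hA hm hx)
  intro h1 h2 y hy h3
  exact h2 (hmv (fun _ => ⟨y, hy, h3⟩) h1)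

theorem lo_case (hρ : ∀ s j i, Arc f s j i → ρ j ≤ ρ i)
    (hσ : ∀ s j i, Arc f s j i → ρ j = r → ρ i = r → i ≠ v → s = (σ j == σ i)) {A B : Set (Cfg n)}
    (hA : IsAttractor f A) (hB : IsAttractor f B) (hns : ∀ k c, ¬ ((∀ x ∈ A, x k = c) ∧ (∀ y ∈ B, y k = !c)))
    (hP : Pair ρ A B r) (hLA : ρ v = r → ∃ a ∈ A, a v = σ v) (hLB : ρ v = r → ∃ b ∈ B, b v = σ v) :
    Pair ρ A B (r + 1) := by
  have hσ' : ∀ s j i, Arc f s j i → ρ j = r → ρ i = r → i ≠ v →
      s = ((fun k => !σ k) j == (fun k => !σ k) i) := by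
    intro s j i h1 h2 h3 h4
    have h5 := hσ s j i h1 h2 h3 h4
    rw [h5]
    cases h6 : σ j <;> cases h7 : σ i <;> simp [h6, h7]
  obtain ⟨mA, hmA, hstA, hminA, hvA⟩ := exists_min hρ hσ hA
  obtain ⟨mB, hmB, hstB, hminB, hvB⟩ := exists_min hρ hσ hB
  obtain ⟨MA, hMA, -, hmaxA, -⟩ := exists_min hρ hσ' hA
  obtain ⟨MB, hMB, -, hmaxB, -⟩ := exists_min hρ hσ' hB
  have hvA' := hvA hLA
  have hvB' := hvB hLB
  -- `mB ≤ MA`
  have h1 : ∀ k, ρ k = r → mB k ≠ σ k → MA k ≠ σ k := by
    intro k hk hmk hMk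
    refine hns k (σ k) ⟨?_, ?_⟩
    · intro x hx
      have h2 := hmaxA x hx k hk (by
        simp only [hMk]
        cases σ k <;> simp)
      cases h3 : x k <;> cases h4 : σ k <;> simp_all
    · intro y hy
      have h2 := hminB y hy k hk hmk
      cases h3 : y k <;> cases h4 : σ k <;> simp_all
  have h2 : ∀ k, ρ k = r → mA k ≠ σ k → MB k ≠ σ k := by
    intro k hk hmk hMk
    refine hns k (!σ k) ⟨?_, ?_⟩
    · intro x hx
      have h2 := hminA x hx k hk hmk
      cases h3 : x k <;> cases h4 : σ k <;> simp_all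
    · intro y hy
      have h2 := hmaxB y hy k hk (by
        simp only [hMk]
        cases σ k <;> simp)
      cases h3 : y k <;> cases h4 : σ k <;> simp_all
  -- `mB ≤ mA`
  have h3 : ∀ k, ρ k = r → mB k ≠ σ k → mA k ≠ σ k := by
    obtain ⟨x₀, hx₀, h4, h5⟩ := hP.move hρ hA hB hMA hmB
    exact persist hρ hσ hB hstB hA.2.1 (fun hr hne => absurd (hvB' hr) hne) hx₀ (fun k hk => h5 k hk.ge) h4.symm hMA h1
      (att_reach hA hMA hmA)
  have h4 : ∀ k, ρ k = r → mA k ≠ σ k → mB k ≠ σ k := by
    obtain ⟨x₀, hx₀, h4, h5⟩ := hP.symm.move hρ hB hA hMB hmA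
    exact persist hρ hσ hA hstA hB.2.1 (fun hr hne => absurd (hvA' hr) hne) hx₀ (fun k hk => h5 k hk.ge) h4.symm hMB h2
      (att_reach hB hMB hmB)
  obtain ⟨y', hy', h5, h6⟩ := hP.move hρ hA hB hmA hmB
  refine ⟨mA, hmA, y', hy', ?_⟩
  intro k hk
  rcases Nat.lt_succ_iff_lt_or_eq.1 hk with h7 | h7
  · exact h5 k h7
  · rw [h6 k h7.ge]
    have h8 := h3 k h7
    have h9 := h4 k h7
    cases h10 : mA k <;> cases h11 : mB k <;> cases h12 : σ k <;> simp_all

theorem step_mono (hρ : ∀ s j i, Arc f s j i → ρ j ≤ ρ i)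
    (hσ : ∀ s j i, Arc f s j i → ρ j = r → ρ i = r → i ≠ v → s = (σ j == σ i)) {A B : Set (Cfg n)}
    (hA : IsAttractor f A) (hB : IsAttractor f B) (hns : ∀ k c, ¬ ((∀ x ∈ A, x k = c) ∧ (∀ y ∈ B, y k = !c)))
    (hP : Pair ρ A B r) : Pair ρ A B (r + 1) := by
  by_cases hLo : (ρ v = r → ∃ a ∈ A, a v = σ v) ∧ (ρ v = r → ∃ b ∈ B, b v = σ v)
  · exact lo_case hρ hσ hA hB hns hP hLo.1 hLo.2
  by_cases hHi : (ρ v = r → ∃ a ∈ A, a v = !σ v) ∧ (ρ v = r → ∃ b ∈ B, b v = !σ v)
  · have hσ' : ∀ s j i, Arc f s j i → ρ j = r → ρ i = r → i ≠ v →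
        s = ((fun k => !σ k) j == (fun k => !σ k) i) := by
      intro s j i h1 h2 h3 h4
      have h5 := hσ s j i h1 h2 h3 h4
      rw [h5]
      cases h6 : σ j <;> cases h7 : σ i <;> simp [h6, h7]
    exact lo_case (σ := fun k => !σ k) hρ hσ' hA hB hns hP hHi.1 hHi.2
  exfalso
  have hvr : ρ v = r := by
    by_contra h1
    exact hLo ⟨fun h => absurd h h1, fun h => absurd h h1⟩
  have hLo' : (∀ a ∈ A, a v ≠ σ v) ∨ (∀ b ∈ B, b v ≠ σ v) := by
    by_contra h1
    push Not at h1
    exact hLo ⟨fun _ => h1.1, fun _ => h1.2⟩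
  have hHi' : (∀ a ∈ A, a v ≠ !σ v) ∨ (∀ b ∈ B, b v ≠ !σ v) := by
    by_contra h1
    push Not at h1
    exact hHi ⟨fun _ => h1.1, fun _ => h1.2⟩
  obtain ⟨a₀, ha₀⟩ := hA.1
  obtain ⟨b₀, hb₀⟩ := hB.1
  have hb : ∀ (p q : Bool), p ≠ q → p = !q := by decide
  rcases hLo' with h1 | h1 <;> rcases hHi' with h2 | h2
  · exact h2 a₀ ha₀ (hb _ _ (h1 a₀ ha₀))
  · refine hns v (!σ v) ⟨fun x hx => hb _ _ (h1 x hx), fun y hy => ?_⟩
    exact hb _ _ (h2 y hy)
  · refine hns v (σ v) ⟨fun x hx => ?_, fun y hy => hb _ _ (h1 y hy)⟩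
    have := hb _ _ (h2 x hx)
    rwa [Bool.not_not] at this
  · exact h2 b₀ hb₀ (hb _ _ (h1 b₀ hb₀))

end mono

/-- the level theorem -/
theorem main_levels (hρ : ∀ s j i, Arc f s j i → ρ j ≤ ρ i)
    (h : ∀ a : Fin n, ∃ v : Fin n, (∀ W : Finset (Fin n), (∀ k ∈ W, ρ k = ρ a) → PosCycle f W → v ∈ W) ∨
      (∃ σ : Cfg n, ∀ s j i, Arc f s j i → ρ j = ρ a → ρ i = ρ a → i ≠ v → s = (σ j == σ i))) : Separating f := by
  intro A B hA hB hAB
  by_contra hne
  have hns := not_sep hA.1 hB.1 hne
  have hall : ∀ r, Pair ρ A B r := by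
    intro r
    induction r with
    | zero =>
      obtain ⟨x, hx⟩ := hA.1
      obtain ⟨y, hy⟩ := hB.1
      exact ⟨x, hx, y, hy, fun k hk => absurd hk (Nat.not_lt_zero _)⟩
    | succ r ih =>
      by_cases ha : ∃ a, ρ a = r
      · obtain ⟨a, rfl⟩ := ha
        obtain ⟨v, h1 | ⟨σ, h1⟩⟩ := h a
        · exact step_pos hρ hA hB hns ih v h1
        · exact step_mono hρ h1 hA hB hns ih
      · obtain ⟨x, hx, y, hy, hxy⟩ := ih
        refine ⟨x, hx, y, hy, fun k hk => hxy k ?_⟩
        rcases Nat.lt_succ_iff_lt_or_eq.1 hk with h7 | h7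
        · exact h7
        · exact absurd ⟨k, h7⟩ ha
  obtain ⟨x, hx, y, hy, hxy⟩ := hall (Finset.univ.sup ρ + 1)
  have hxy' : x = y := by
    funext k
    exact hxy k (Nat.lt_succ_of_le (Finset.le_sup (Finset.mem_univ k)))
  subst hxy'
  exact hAB (att_eq hA hB hx hy)

end NSep
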